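import Pool.Agent.C4U.Stmts

/-!
# Row CLQ of squad C4U
-/

set_option autoImplicit false

namespace Pool.Agent.C4U.H19

open Pool.Agent.C4U

theorem clq : ClqStmt := by
  intro V hV hJ hIm a b ha hb x y hx hy
  obtain ⟨hxN, hxa, hxb, hx4⟩ := hx
  obtain ⟨hyN, hya, hyb, hy4⟩ := hy
  by_contra hc
  by_cases hab : a = b
  · apply hIm x y
    refine ⟨hxN, hyN, Or.inr ⟨hc, a, hJ.1 a ha, ha, ?_⟩⟩
    intro u hu hJu
    exact ⟨⟨hx4 hab u hu hJu, fun h => h ▸ hxa⟩, ⟨hy4 hab u hu hJu, fun h => h ▸ hya⟩⟩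
  · have hnab : ¬ V.A a b := hJ.2 a b ha hb
    have hnba : ¬ V.A b a := hJ.2 b a hb ha
    have e1 : ∀ z, V.Cl z a → V.Cl z b → V.A z a ∧ V.A z b := by
      intro z h1 h2
      rcases h1 with h1 | h1
      · rw [h1] at h2
        rcases h2 with h2 | h2
        · exact absurd h2 hab
        · exact absurd h2 hnab
      · rcases h2 with h2 | h2
        · rw [h2] at h1
          exact absurd h1 hnba
        · exact ⟨h1, h2⟩
    obtain ⟨x1, x2⟩ := e1 x hxa hxb
    obtain ⟨y1, y2⟩ := e1 y hya hyb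
    apply hc
    left
    exact hV.free a x b y (hV.symm _ _ x1) x2 (hV.symm _ _ y2) y1 hnab
      (fun h => hc (Or.inr h)) hab

end Pool.Agent.C4U.H19
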