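import Pool.Agent.C4U.Stmts

/-!
# Row CSL of squad C4U: Cauchy-Schwarz for functions with `m` coordinates
-/

set_option autoImplicit false

namespace Pool.Agent.C4U.H19

open Pool.Agent.C4U

/-- the mask `i` -/
def mk (a b : ℕ → ℕ) (i : ℕ) (f : ℕ → ℕ) : ℕ → ℕ :=
  fun e => if a e = i ∨ b e = i then f e else 0

open Classical in
theorem csl_aux (k : ℕ) (a b : ℕ → ℕ) (m : ℕ) : ∀ S : Finset (ℕ → ℕ),
    (∀ e < m, a e < k ∧ b e < k ∧ a e ≠ b e) → (∀ f ∈ S, ∀ e, m ≤ e → f e = 0) →
    S.card ^ 2 ≤ ∏ i ∈ Finset.range k, (S.image (mk a b i)).card := by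
  induction m with
  | zero =>
    intro S _ h0
    rcases S.eq_empty_or_nonempty with h | h
    · rw [h]
      simp
    · have h1 : S.card ≤ 1 := by
        rw [Finset.card_le_one]
        intro f hf g hg
        funext e
        rw [h0 f hf e (Nat.zero_le e), h0 g hg e (Nat.zero_le e)]
      have h2 : 1 ≤ ∏ i ∈ Finset.range k, (S.image (mk a b i)).card := by
        apply Nat.one_le_iff_ne_zero.mpr
        rw [Finset.prod_ne_zero_iff]
        intro i _
        exact Finset.card_ne_zero.mpr (h.image _)
      calc S.card ^ 2 ≤ 1 ^ 2 := Nat.pow_le_pow_left h1 2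
        _ = 1 := by norm_num
        _ ≤ _ := h2
  | succ m ih =>
    intro S hab h0
    obtain ⟨hA, hB, hne⟩ := hab m (Nat.lt_succ_self m)
    obtain ⟨T, hT⟩ : ∃ T : ℕ → Finset (ℕ → ℕ), ∀ v, T v = S.filter (fun f => f m = v) :=
      ⟨_, fun _ => rfl⟩
    obtain ⟨U, hU⟩ : ∃ U : ℕ → Finset (ℕ → ℕ),
        ∀ v, U v = (T v).image (fun f => Function.update f m 0) := ⟨_, fun _ => rfl⟩
    have hTm : ∀ v, ∀ f ∈ T v, f ∈ S ∧ f m = v := by
      intro v f hf
      rw [hT] at hf
      exact Finset.mem_filter.mp hf
    have hUm : ∀ v, ∀ g ∈ U v, ∃ f, f ∈ S ∧ f m = v ∧ g = Function.update f m 0 := by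
      intro v g hg
      rw [hU] at hg
      obtain ⟨f, hf, hfg⟩ := Finset.mem_image.mp hg
      exact ⟨f, (hTm v f hf).1, (hTm v f hf).2, hfg.symm⟩
    have hUcard : ∀ v, (U v).card = (T v).card := by
      intro v
      rw [hU]
      apply Finset.card_image_of_injOn
      intro f hf g hg hfg
      have hf' := (hTm v f hf).2
      have hg' := (hTm v g hg).2
      funext e
      by_cases he : e = m
      · rw [he, hf', hg']
      · have h3 : Function.update f m 0 e = Function.update g m 0 e := congrFun hfg e
        rw [Function.update_of_ne he, Function.update_of_ne he] at h3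
        exact h3
    have hS : S.card = ∑ v ∈ S.image (fun f => f m), (T v).card := by
      rw [Finset.card_eq_sum_card_image (fun f => f m) S]
      apply Finset.sum_congr rfl
      intro v _
      rw [hT]
    have hU0 : ∀ v, ∀ f ∈ U v, ∀ e, m ≤ e → f e = 0 := by
      intro v g hg e he
      obtain ⟨f, hf, hfv, rfl⟩ := hUm v g hg
      by_cases hem : e = m
      · rw [hem, Function.update_self]
      · rw [Function.update_of_ne hem]
        exact h0 f hf e (by omega)
    have hIH := fun v => ih (U v) (fun e he => hab e (by omega)) (hU0 v)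
    have hoth : ∀ v i, i ≠ a m → i ≠ b m →
        ((U v).image (mk a b i)).card ≤ (S.image (mk a b i)).card := by
      intro v i hi1 hi2
      apply Finset.card_le_card
      intro g hg
      obtain ⟨f', hf', rfl⟩ := Finset.mem_image.mp hg
      obtain ⟨f, hf, hfv, rfl⟩ := hUm v f' hf'
      refine Finset.mem_image.mpr ⟨f, hf, ?_⟩
      funext e
      unfold mk
      by_cases he : e = m
      · have h3 : ¬ (a e = i ∨ b e = i) := by
          rw [he]
          rintro (h | h)
          · exact hi1 h.symm
          · exact hi2 h.symm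
        rw [if_neg h3, if_neg h3]
      · rw [Function.update_of_ne he]
    have hsum : ∀ i, (a m = i ∨ b m = i) →
        ∑ v ∈ S.image (fun f => f m), ((U v).image (mk a b i)).card
          ≤ (S.image (mk a b i)).card := by
      intro i hi
      have h1 : ∀ v, ((U v).image (mk a b i)).card
          ≤ ((S.image (mk a b i)).filter (fun g => g m = v)).card := by
        intro v
        refine le_trans (Finset.card_le_card ?_)
          (Finset.card_image_le (f := fun g : ℕ → ℕ => Function.update g m 0))
        intro g hg
        obtain ⟨f', hf', rfl⟩ := Finset.mem_image.mp hg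
        obtain ⟨f, hf, hfv, rfl⟩ := hUm v f' hf'
        refine Finset.mem_image.mpr ⟨mk a b i f,
          Finset.mem_filter.mpr ⟨Finset.mem_image_of_mem _ hf, ?_⟩, ?_⟩
        · show (if a m = i ∨ b m = i then f m else 0) = v
          rw [if_pos hi]
          exact hfv
        · funext e
          by_cases he : e = m
          · rw [he, Function.update_self]
            unfold mk
            rw [Function.update_self, ite_self]
          · rw [Function.update_of_ne he]
            unfold mk
            rw [Function.update_of_ne he]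
      refine le_trans (Finset.sum_le_sum fun v _ => h1 v) ?_
      rw [← Finset.card_eq_sum_card_fiberwise (f := fun g : ℕ → ℕ => g m)]
      intro g hg
      obtain ⟨f, hf, rfl⟩ := Finset.mem_image.mp hg
      refine Finset.mem_image.mpr ⟨f, hf, ?_⟩
      show f m = (if a m = i ∨ b m = i then f m else 0)
      rw [if_pos hi]
    have hP : ∀ F : ℕ → ℕ, ∏ i ∈ Finset.range k, F i
        = F (a m) * F (b m) * ∏ i ∈ ((Finset.range k).erase (a m)).erase (b m), F i := by
      intro F
      rw [← Finset.mul_prod_erase (Finset.range k) F (Finset.mem_range.mpr hA),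
        ← Finset.mul_prod_erase ((Finset.range k).erase (a m)) F
          (Finset.mem_erase.mpr ⟨hne.symm, Finset.mem_range.mpr hB⟩), mul_assoc]
    obtain ⟨P, hPd⟩ : ∃ P, P = ∏ i ∈ ((Finset.range k).erase (a m)).erase (b m),
        (S.image (mk a b i)).card := ⟨_, rfl⟩
    have h2 : ∀ v ∈ S.image (fun f => f m), (T v).card ^ 2
        ≤ (((U v).image (mk a b (a m))).card * P) * ((U v).image (mk a b (b m))).card := by
      intro v _
      have h5 := hIH v
      rw [hP, hUcard] at h5
      refine le_trans h5 ?_
      have h3 : ∏ i ∈ ((Finset.range k).erase (a m)).erase (b m),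
          ((U v).image (mk a b i)).card ≤ P := by
        rw [hPd]
        apply Finset.prod_le_prod'
        intro i hi
        rw [Finset.mem_erase, Finset.mem_erase] at hi
        exact hoth v i hi.2.1 hi.1
      calc _ ≤ (((U v).image (mk a b (a m))).card * ((U v).image (mk a b (b m))).card) * P :=
            Nat.mul_le_mul_left _ h3
        _ = _ := by ring
    have h4 := Finset.sum_sq_le_sum_mul_sum_of_sq_le_mul (S.image (fun f => f m))
      (fun v _ => Nat.zero_le _) (fun v _ => Nat.zero_le _) h2
    rw [← hS, ← Finset.sum_mul] at h4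
    refine le_trans h4 ?_
    rw [hP, ← hPd]
    calc _ ≤ ((S.image (mk a b (a m))).card * P) * (S.image (mk a b (b m))).card :=
          Nat.mul_le_mul (Nat.mul_le_mul_right _ (hsum (a m) (Or.inl rfl)))
            (hsum (b m) (Or.inr rfl))
      _ = _ := by ring

theorem csl : CslStmt := by
  classical
  intro k m a b S hab h0
  have h := csl_aux k a b m S hab h0
  refine le_trans h (le_of_eq ?_)
  apply Finset.prod_congr rfl
  intro i _
  rw [← Set.ncard_coe_finset, Finset.coe_image]
  rfl

end Pool.Agent.C4U.H19
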